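import Pool.Agent.Y62.GA.Expo

/-!
# Galois-fixed characters of degree prime to 3 and the exponent of `P/P'`, for a family of groups

`O` is a valuation subring of `ℂ` whose maximal ideal `O.nonunits` contains `3`; it plays the role
of a `3`-modular system.
-/

namespace Pool.Agent.Results.MP_1a5b27_al.ExponentPrincipalThree

open Pool.Agent.H254R3.IN

/-- The principal block of `G`: the irreducible characters whose central character is congruent to
the one of the trivial character. -/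
def PrincipalBlock (O : ValuationSubring ℂ) (G : Type) [Group G] : Set (G → ℂ) :=
  {χ | IsIrr χ ∧ ∀ x : G, omega χ x - omega (fun _ => (1 : ℂ)) x ∈ O.nonunits}

/-- The degree of `χ` is prime to `3`. -/
def DegreePrime {G : Type} [Group G] (χ : G → ℂ) : Prop := ∃ n : ℕ, (n : ℂ) = χ 1 ∧ ¬ 3 ∣ n

/-- Let `G` be a finite group of order `3 ^ b * m` with `3 ∤ m`, `N ≠ G` a normal subgroup whose
order is divisible by `3`, `P` a Sylow `3`-subgroup of `G` and `y ∈ P` with `G = N⟨y⟩`. Suppose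
that `9` does not divide `|C_N(x)|` for every `3`-element `x` of the coset `yN`. Let
`exp(P/P') ≤ 3 ^ e`, and let `σ` be an automorphism of `ℂ` with `σ(ξ) = ξ` for all `m`-th roots of
unity and `σ(ξ) = ξ ^ (1 + 3 ^ e)` for all `3 ^ b`-th roots of unity. Then `σ` fixes every
irreducible character of degree prime to `3` in the principal `3`-block of `G`; if moreover
`C_G(P) ≤ P`, then `σ` fixes every irreducible character of `G` of degree prime to `3`. -/
theorem result (G : Type) [Group G] [Finite G]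
    (b m : ℕ) (hm : ¬ 3 ∣ m) (hG : Nat.card G = 3 ^ b * m)
    (N : Subgroup G) (hN : N.Normal) (hNt : N ≠ ⊤) (h3 : 3 ∣ Nat.card N)
    (P : Sylow 3 G) (y : G) (hy : y ∈ P) (hgen : N ⊔ Subgroup.zpowers y = ⊤)
    (h9 : ∀ x : G, (∃ k : ℕ, orderOf x = 3 ^ k) → y⁻¹ * x ∈ N →
      ¬ 9 ∣ Nat.card (Subgroup.centralizer ({x} : Set G) ⊓ N : Subgroup G))
    (e : ℕ) (hexp : Monoid.exponent (Abelianization (P : Subgroup G)) ≤ 3 ^ e)
    (σ : ℂ ≃+* ℂ) (hσ1 : ∀ ξ : ℂ, ξ ^ m = 1 → σ ξ = ξ)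
    (hσ2 : ∀ ξ : ℂ, ξ ^ 3 ^ b = 1 → σ ξ = ξ ^ (1 + 3 ^ e)) :
    (∀ O : ValuationSubring ℂ, ((3 : ℕ) : ℂ) ∈ O.nonunits →
      ∀ χ ∈ PrincipalBlock O G, DegreePrime χ → ∀ g, σ (χ g) = χ g) ∧
    (Subgroup.centralizer ((P : Subgroup G) : Set G) ≤ P →
      ∀ χ : G → ℂ, IsIrr χ → DegreePrime χ → ∀ g, σ (χ g) = χ g) := by
  have := Fintype.ofFinite G
  have hF : Fact (Nat.Prime 3) := ⟨Nat.prime_three⟩
  have key : ∀ O : ValuationSubring ℂ, ((3 : ℕ) : ℂ) ∈ O.nonunits →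
      ∀ χ ∈ PrincipalBlock O G, DegreePrime χ → ∀ g, σ (χ g) = χ g := fun O hO χ hχ hd g =>
    congrFun (Pool.Agent.Y62.GA.glob_fixed (O := O) ⟨hO, hN, hNt, hgen, hy, h3, h9⟩ hm hG hexp
      hσ1 hσ2 ((Pool.Agent.Y62.GA.mem_X0_iff hO).mpr ⟨hχ, hd⟩)) g
  refine ⟨key, fun hC χ hχ hd => ?_⟩
  obtain ⟨O, hO⟩ := Pool.Agent.Y62.GA.place3
  obtain ⟨n, hn, hn3⟩ := hd
  refine key O hO χ (Pool.Agent.Y62.GA.mem_B0_of_cent hO P hC hχ fun h0 => hn3 ?_) ⟨n, hn, hn3⟩
  rw [← hn] at h0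
  exact (red_nat_eq_zero_iff (p := 3) hO n).mp h0

end Pool.Agent.Results.MP_1a5b27_al.ExponentPrincipalThree
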